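import Pool.Agent.Helper38.VF.Goals2

/-!
# Project VTF: TR1, the trace property
-/

set_option autoImplicit false

namespace Pool.Agent.Helper55.VF

open Pool.Agent.Helper27.VF Pool.Agent.Helper38.VF

universe u

/-- coordinates are continuous -/
theorem cont_coord {X : Type u} (z : X) : Continuous fun f : L2 X => f z := by
  classical
  have h : (fun f : L2 X => f z) = fun f => inner ℝ (lp.single 2 z (1 : ℝ)) f := by
    funext f
    rw [lp.inner_single_left]
    simp
  rw [h]
  exact continuous_const.inner continuous_id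

theorem expand {X Y : Type u} [DecidableEq Y] (T : L2 Y →L[ℝ] L2 X) (f : L2 Y) (z : X) :
    HasSum (fun y => f y * T (lp.single 2 y (1 : ℝ)) z) (T f z) := by
  have h1 : HasSum (fun y => lp.single 2 y (f y)) f :=
    lp.hasSum_single (by norm_num) f
  have h2 := T.hasSum h1
  have h3 : HasSum ((fun g : L2 X => g z) ∘ fun y => T (lp.single 2 y (f y))) (T f z) := by
    have := h2.map ({ toFun := fun g : L2 X => g z, map_zero' := rfl, map_add' := fun _ _ => rfl } :
      L2 X →+ ℝ) (cont_coord z)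
    exact this
  have h4 : (fun y => f y * T (lp.single 2 y (1 : ℝ)) z) =
      (fun g : L2 X => g z) ∘ fun y => T (lp.single 2 y (f y)) := by
    funext y
    have h5 : lp.single 2 y (f y) = f y • (lp.single 2 y (1 : ℝ) : L2 Y) := by
      rw [← lp.single_smul, smul_eq_mul, mul_one]
    simp only [Function.comp_apply]
    rw [h5, T.map_smul]
    rfl
  rw [h4]
  exact h3

theorem eqv_single {A : Type u} [Group A] [DecidableEq A] {a b : ℕ}
    {T : L2 (Fin a × A) →L[ℝ] L2 (Fin b × A)} (hT : Eqv T) (i : Fin a) (g : A) (j : Fin b) :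
    T (lp.single 2 (i, g) (1 : ℝ)) (j, 1) = T (lp.single 2 (i, 1) (1 : ℝ)) (j, g⁻¹) := by
  have h := hT g⁻¹ (lp.single 2 (i, 1) (1 : ℝ)) (lp.single 2 (i, g) (1 : ℝ)) ?_ (j, 1)
  · simpa using h
  · rintro ⟨i', g'⟩
    rw [lp.single_apply, lp.single_apply, Pi.single_apply, Pi.single_apply]
    have : ((i', g') = (i, g)) ↔ ((i', g' * g⁻¹) = (i, (1 : A))) := by
      rw [Prod.mk.injEq, Prod.mk.injEq, mul_inv_eq_one]
    simp only [this]

open Classical in
theorem half {A : Type u} [Group A] {m n : ℕ}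
    (P : L2 (Fin m × A) →L[ℝ] L2 (Fin n × A)) (Q : L2 (Fin n × A) →L[ℝ] L2 (Fin m × A))
    (hP : Eqv P) :
    tr' (P.comp Q) = ∑ j : Fin n, ∑ i : Fin m, ∑' g : A,
      Q (lp.single 2 (j, 1) (1 : ℝ)) (i, g) * P (lp.single 2 (i, 1) (1 : ℝ)) (j, g⁻¹) := by
  unfold tr'
  refine Finset.sum_congr rfl fun j _ => ?_
  have h := expand P (Q (lp.single 2 (j, 1) (1 : ℝ))) (j, 1)
  have h1 : (P.comp Q) (lp.single 2 (j, 1) (1 : ℝ)) (j, 1) =
      P (Q (lp.single 2 (j, 1) (1 : ℝ))) (j, 1) := rfl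
  rw [h1, ← h.tsum_eq, Summable.tsum_prod h.summable, tsum_fintype]
  refine Finset.sum_congr rfl fun i _ => tsum_congr fun g => ?_
  rw [eqv_single hP]

theorem tr1 : Tr1Stmt.{u} := by
  intro A _ m n P Q hP hQ
  classical
  rw [half P Q hP, half Q P hQ, Finset.sum_comm]
  refine Finset.sum_congr rfl fun i _ => Finset.sum_congr rfl fun j _ => ?_
  rw [← (Equiv.inv A).tsum_eq]
  refine tsum_congr fun g => ?_
  simp only [Equiv.inv_apply, inv_inv]
  ring

end Pool.Agent.Helper55.VF
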